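import Mathlib

set_option autoImplicit false

namespace Pool.Agent.Results.MP_130313_co.Frob
open Finset

/-- size of colour class `k` -/
noncomputable def cls {V : Type} {F : SimpleGraph V} {l : ℕ} (c : F.Coloring (Fin l)) (k : Fin l) :
    ℕ := {v | c v = k}.ncard

/-- `σ(F)`: least size of a colour class over the proper colourings with `l = χ(F)` colours -/
noncomputable def sigma {V : Type} (F : SimpleGraph V) (l : ℕ) : ℕ :=
  sInf {x | ∃ (c : F.Coloring (Fin l)) (k : Fin l), cls c k = x}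

/-- `𝒟(F)`: differences of consecutive class sizes, listed in non-decreasing order -/
def Dset {V : Type} (F : SimpleGraph V) (l : ℕ) : Set ℕ :=
  {d | ∃ (c : F.Coloring (Fin l)) (p : Equiv.Perm (Fin l)), Monotone (fun i => cls c (p i)) ∧
    ∃ i j : Fin l, (j : ℕ) = i + 1 ∧ d = cls c (p j) - cls c (p i)}

/-- `hcf(F) = 1` for a non-bipartite graph -/
def HcfOne {V : Type} (F : SimpleGraph V) (l : ℕ) : Prop :=
  ∀ g : ℕ, (∀ d ∈ Dset F l, g ∣ d) → g = 1

/-- the critical chromatic number -/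
noncomputable def chiCr {V : Type} [Fintype V] (F : SimpleGraph V) (l : ℕ) : ℚ :=
  ((l : ℚ) - 1) * (Fintype.card V : ℚ) / ((Fintype.card V : ℚ) - sigma F l)

/-- vertex-disjoint copies of `F` in `G` covering every vertex -/
def PerfectPacking {V W : Type} (F : SimpleGraph V) (G : SimpleGraph W) : Prop :=
  ∃ (m : ℕ) (f : Fin m → V → W), (∀ i u v, F.Adj u v → G.Adj (f i u) (f i v)) ∧
    Function.Bijective (fun p : Fin m × V => f p.1 p.2)

def multi (s : Fin 3 → ℕ) : SimpleGraph (Σ i : Fin 3, Fin (s i)) where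
  Adj u v := u.1 ≠ v.1
  symm := ⟨fun _ _ h => h.symm⟩
  loopless := ⟨fun _ h => h rfl⟩

lemma card_part (s : Fin 3 → ℕ) (k : Fin 3) :
    #(univ.filter fun v : (Σ i : Fin 3, Fin (s i)) => v.1 = k) = s k := by
  rw [card_filter, Fintype.sum_sigma]
  have : ∀ x : Fin 3, (∑ _y : Fin (s x), if x = k then 1 else 0) = if x = k then s x else 0 := by
    intro x; split_ifs <;> simp
  exact (sum_congr rfl fun x _ => this x).trans (by simp)

lemma card_multi (s : Fin 3 → ℕ) : Fintype.card (Σ i : Fin 3, Fin (s i)) = s 0 + s 1 + s 2 := by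
  simp [Fin.sum_univ_three]

lemma col_perm (s : Fin 3 → ℕ) (hs : ∀ i, 0 < s i) (c : (Σ i : Fin 3, Fin (s i)) → Fin 3)
    (hc : ∀ u v, u.1 ≠ v.1 → c u ≠ c v) :
    ∃ p : Equiv.Perm (Fin 3), ∀ k, #(univ.filter fun v => c v = p k) = s k := by
  let q : Fin 3 → Fin 3 := fun i => c ⟨i, ⟨0, hs i⟩⟩
  have hq : Function.Injective q := by
    intro i j h
    by_contra hne
    exact hc ⟨i, ⟨0, hs i⟩⟩ ⟨j, ⟨0, hs j⟩⟩ hne h
  have hb := Finite.injective_iff_bijective.1 hq
  have key : ∀ v, c v = q v.1 := by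
    intro v
    obtain ⟨j, hj⟩ := hb.2 (c v)
    by_cases h : v.1 = j
    · rw [h, hj]
    · exact absurd hj.symm (hc v ⟨j, ⟨0, hs j⟩⟩ h)
  refine ⟨Equiv.ofBijective q hb, fun k => ?_⟩
  rw [← card_part s k]
  congr 1
  ext v
  simp only [mem_filter, mem_univ, true_and, key, Equiv.ofBijective_apply]
  exact hq.eq_iff

lemma cls_eq {s : Fin 3 → ℕ} (c : (multi s).Coloring (Fin 3)) (k : Fin 3) :
    cls c k = #(univ.filter fun v => c v = k) := by
  unfold cls
  rw [← Set.ncard_coe_finset]; congr 1; ext v; simp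

def stdCol (s : Fin 3 → ℕ) : (multi s).Coloring (Fin 3) :=
  SimpleGraph.Coloring.mk (fun v => v.1) (fun h => h)

lemma cls_std (s : Fin 3 → ℕ) (k : Fin 3) : cls (stdCol s) k = s k := by
  rw [cls_eq, ← card_part s k]; rfl

lemma chi_multi (s : Fin 3 → ℕ) (hs : ∀ i, 0 < s i) : (multi s).chromaticNumber = (3 : ℕ) := by
  have : ((3 : ℕ) : ℕ∞) = (2 : ℕ) + 1 := by norm_num
  rw [this, SimpleGraph.chromaticNumber_eq_iff_colorable_not_colorable]
  refine ⟨⟨stdCol s⟩, fun ⟨c⟩ => ?_⟩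
  have h01 := c.valid (show (multi s).Adj ⟨0, ⟨0, hs 0⟩⟩ ⟨1, ⟨0, hs 1⟩⟩ by simp [multi])
  have h02 := c.valid (show (multi s).Adj ⟨0, ⟨0, hs 0⟩⟩ ⟨2, ⟨0, hs 2⟩⟩ by simp [multi])
  have h12 := c.valid (show (multi s).Adj ⟨1, ⟨0, hs 1⟩⟩ ⟨2, ⟨0, hs 2⟩⟩ by simp [multi])
  omega

lemma deg_multi (s : Fin 3 → ℕ) (v : Σ i : Fin 3, Fin (s i)) :
    ((multi s).neighborSet v).ncard + s v.1 = s 0 + s 1 + s 2 := by
  have h1 : ((multi s).neighborSet v).ncard = #(univ.filter fun w : (Σ i : Fin 3, Fin (s i)) =>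
      ¬ w.1 = v.1) := by
    rw [← Set.ncard_coe_finset]; congr 1; ext w
    simp [multi, eq_comm]
  rw [h1, ← card_part s v.1, add_comm, card_filter_add_card_filter_not, card_univ, card_multi]

lemma no_pack (a m t B : ℕ) (ht : t + a + 1 = a * a) (ha : 1 ≤ a)
    (hn : m + t + B + B = m * (2 * a + 4)) :
    ¬ PerfectPacking (multi ![1, a + 1, a + 2]) (multi ![m + t, B, B]) := by
  rintro ⟨M, f, hf, hb⟩
  have hM : M = m := by
    have := Fintype.card_of_bijective hb
    rw [Fintype.card_prod, card_multi, card_multi, Fintype.card_fin] at this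
    simp only [Matrix.cons_val_zero, Matrix.cons_val_one, Matrix.cons_val] at this
    rw [hn] at this
    have h2 : M * (2 * a + 4) = m * (2 * a + 4) := by rw [← this]; ring
    exact Nat.eq_of_mul_eq_mul_right (by omega) h2
  subst hM
  have h1 : ∑ i : Fin M, #(univ.filter fun u => (f i u).1 = 0) = M + t := by
    have h2 := card_part ![M + t, B, B] 0
    simp only [Matrix.cons_val_zero] at h2
    refine Eq.trans ?_ h2
    rw [card_filter, ← hb.sum_comp, Fintype.sum_prod_type]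
    simp only [card_filter]
  have h3 : ∀ i : Fin M, ∃ x y : ℕ, y ≤ x ∧
      #(univ.filter fun u => (f i u).1 = 0) = 1 + (x * a + y) := by
    intro i
    obtain ⟨p, hp⟩ := col_perm ![1, a + 1, a + 2] (by intro i; fin_cases i <;> simp)
      (fun u => (f i u).1) (fun u v h => hf i u v h)
    have h4 := hp (p.symm 0)
    rw [Equiv.apply_symm_apply] at h4
    rw [h4]
    generalize p.symm 0 = k
    fin_cases k
    · exact ⟨0, 0, le_rfl, by simp⟩
    · exact ⟨1, 0, by omega, by simp; omega⟩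
    · exact ⟨1, 1, le_rfl, by simp; omega⟩
  choose x y hxy h4 using h3
  rw [sum_congr rfl fun i _ => h4 i, sum_add_distrib, sum_add_distrib, ← sum_mul] at h1
  have h5 : ∑ i, y i ≤ ∑ i, x i := sum_le_sum fun i _ => hxy i
  simp only [sum_const, card_univ, Fintype.card_fin, smul_eq_mul, mul_one] at h1
  generalize ∑ i, x i = X at *
  generalize ∑ i, y i = Y at *
  have h6 : X * a + Y + a + 1 = a * a := by omega
  rcases Nat.lt_or_ge (X + 1) a with h | h
  · have : (X + 2) * a ≤ a * a := Nat.mul_le_mul_right a h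
    nlinarith
  · have : a * a ≤ (X + 1) * a := Nat.mul_le_mul_right a h
    nlinarith

theorem result (K : ℕ) : ∃ (V : Type) (_ : Fintype V) (F : SimpleGraph V) (l : ℕ),
    F.chromaticNumber = l ∧ 3 ≤ l ∧ HcfOne F l ∧
    ∀ n₀ : ℕ, ∃ n : ℕ, n₀ ≤ n ∧ Fintype.card V ∣ n ∧
      ∃ (W : Type) (_ : Fintype W) (G : SimpleGraph W), Fintype.card W = n ∧
        (∀ v, (1 - 1 / chiCr F l) * n + K * Fintype.card V ≤ ((G.neighborSet v).ncard : ℚ)) ∧
        ¬ PerfectPacking F G := by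
  obtain ⟨c, hc⟩ : ∃ c, c = 2 * K + 2 := ⟨_, rfl⟩
  have hs : ∀ i, 0 < (![1, 2 * c + 2 + 1, 2 * c + 2 + 2] : Fin 3 → ℕ) i := by
    intro i; fin_cases i <;> simp
  have hsig : sigma (multi ![1, 2 * c + 2 + 1, 2 * c + 2 + 2]) 3 = 1 := by
    unfold sigma
    apply le_antisymm
    · exact Nat.sInf_le ⟨stdCol _, 0, by rw [cls_std]; rfl⟩
    · refine le_csInf ⟨_, stdCol _, 0, rfl⟩ ?_
      rintro x ⟨d, k, rfl⟩
      obtain ⟨p, hp⟩ := col_perm _ hs d (fun u v h => d.valid h)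
      have h4 := hp (p.symm k)
      rw [Equiv.apply_symm_apply] at h4
      rw [cls_eq, h4]
      exact hs _
  have hV : Fintype.card (Σ i : Fin 3, Fin ((![1, 2 * c + 2 + 1, 2 * c + 2 + 2] : Fin 3 → ℕ) i)) =
      4 * c + 8 := by
    rw [card_multi]; simp; omega
  refine ⟨_, inferInstance, multi ![1, 2 * c + 2 + 1, 2 * c + 2 + 2], 3, chi_multi _ hs, le_rfl,
    ?_, fun r => ?_⟩
  · intro g hg
    have := hg 1 ⟨stdCol _, 1, ?_, 1, 2, rfl, ?_⟩
    · exact Nat.dvd_one.1 this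
    · intro i j hij
      simp only [cls_std, Equiv.Perm.one_apply]
      fin_cases i <;> fin_cases j <;> simp at hij ⊢
    · simp [cls_std]
  · obtain ⟨m, hm⟩ : ∃ m, m = 2 * r + 2 * c ^ 2 + 3 := ⟨_, rfl⟩
    obtain ⟨t, ht⟩ : ∃ t, t = 4 * c ^ 2 + 6 * c + 1 := ⟨_, rfl⟩
    obtain ⟨B, hB⟩ : ∃ B, B = r * (4 * c + 7) + 4 * c ^ 3 + 5 * c ^ 2 + 3 * c + 10 := ⟨_, rfl⟩
    have hn : m + t + B + B = m * (4 * c + 8) := by rw [hm, ht, hB]; ring
    have hAB : m + t ≤ B := by
      rw [hm, ht, hB]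
      have : 1 ≤ c := by omega
      nlinarith [Nat.zero_le r, Nat.zero_le (r * c), Nat.mul_le_mul this (Nat.mul_le_mul this this),
        Nat.mul_le_mul_left (c * c) this, Nat.mul_le_mul_left c this]
    have htK : 2 * (K * (4 * c + 8)) ≤ t := by rw [ht, hc]; nlinarith
    refine ⟨m * (4 * c + 8), by rw [hm]; nlinarith, by rw [hV]; exact Dvd.intro_left _ rfl,
      _, inferInstance, multi ![m + t, B, B], by rw [card_multi, ← hn]; rfl, fun v => ?_,
      no_pack (2 * c + 2) m t B (by rw [ht]; ring) (by omega) (by rw [hn]; ring)⟩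
    have h1 := deg_multi ![m + t, B, B] v
    have h2 : (![m + t, B, B] : Fin 3 → ℕ) v.1 ≤ B := by
      generalize v.1 = k
      fin_cases k <;> simp [hAB]
    have h3 : m + t + B ≤ ((multi ![m + t, B, B]).neighborSet v).ncard := by
      simp only [Matrix.cons_val_zero, Matrix.cons_val_one, Matrix.cons_val] at h1
      omega
    have h4 : ((m + t + B : ℕ) : ℚ) ≤ ((multi ![m + t, B, B]).neighborSet v).ncard := by
      exact_mod_cast h3
    refine le_trans ?_ h4
    have hn' : (m : ℚ) + t + B + B = m * (4 * c + 8) := by exact_mod_cast hn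
    have htK' : 2 * ((K : ℚ) * (4 * c + 8)) ≤ t := by exact_mod_cast htK
    unfold chiCr
    rw [hsig, hV]
    have hc0 : (0 : ℚ) ≤ c := Nat.cast_nonneg c
    have e1 : (1 - 1 / ((((3 : ℕ) : ℚ) - 1) * ((4 * c + 8 : ℕ) : ℚ) /
        (((4 * c + 8 : ℕ) : ℚ) - ((1 : ℕ) : ℚ)))) * ((m * (4 * c + 8) : ℕ) : ℚ) =
        m * (4 * c + 9) / 2 := by
      push_cast
      have : (4 * (c : ℚ) + 8 - 1) ≠ 0 := by linarith
      have : (4 * (c : ℚ) + 8) ≠ 0 := by linarith
      field_simp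
      ring
    rw [e1]
    push_cast
    linarith

end Pool.Agent.Results.MP_130313_co.Frob
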